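import Pool.Agent.Helper9.Ends.Defs

/-!
# Injective holomorphic functions
-/

set_option autoImplicit false

open Set Filter Metric Topology

namespace Pool.Agent.EN

theorem inverse_not_const {D : Set ℂ} (hD : IsOpen D) {f : ℂ → ℂ} (hi : InjOn f D) {z : ℂ}
    (hz : z ∈ D) : ¬ ∀ᶠ w in 𝓝 z, f w = f z := by
  intro h
  have h1 : ∀ᶠ w in 𝓝[≠] z, f w = f z ∧ w ∈ D :=
    (h.and (hD.mem_nhds hz)).filter_mono nhdsWithin_le_nhds
  have h2 : ∀ᶠ w in 𝓝[≠] z, w ≠ z := self_mem_nhdsWithin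
  obtain ⟨w, hw, hwz⟩ := (h1.and h2).exists
  exact hwz (hi hw.2 hz hw.1)

theorem inverse_nhds {D : Set ℂ} (hD : IsOpen D) {f : ℂ → ℂ} (hf : DifferentiableOn ℂ f D)
    (hi : InjOn f D) {z : ℂ} (hz : z ∈ D) : 𝓝 (f z) ≤ map f (𝓝 z) :=
  ((hf.analyticAt (hD.mem_nhds hz)).eventually_constant_or_nhds_le_map_nhds).resolve_left
    (inverse_not_const hD hi hz)

theorem inverse_deriv_ne {D : Set ℂ} (hD : IsOpen D) {f : ℂ → ℂ} (hf : DifferentiableOn ℂ f D)
    (hi : InjOn f D) {z : ℂ} (hz : z ∈ D) : ∀ᶠ w in 𝓝[≠] z, deriv f w ≠ 0 := by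
  have han : AnalyticAt ℂ (deriv f) z := (hf.analyticAt (hD.mem_nhds hz)).deriv
  refine han.eventually_eq_zero_or_eventually_ne_zero.resolve_left fun h => ?_
  apply inverse_not_const hD hi hz
  obtain ⟨r, hr, hball⟩ := Metric.eventually_nhds_iff_ball.1 (h.and (hD.mem_nhds hz))
  filter_upwards [ball_mem_nhds z hr] with w hw
  refine (convex_ball z r).is_const_of_fderivWithin_eq_zero (𝕜 := ℂ) (f := f) ?_ ?_ hw
    (mem_ball_self hr)
  · exact hf.mono fun x hx => (hball x hx).2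
  · intro x hx
    rw [fderivWithin_of_isOpen isOpen_ball hx]
    ext
    simp [(hball x hx).1]

/-- EN-5 -/
theorem exists_inverse {D : Set ℂ} (hD : IsOpen D) {f : ℂ → ℂ} (hf : DifferentiableOn ℂ f D)
    (hi : InjOn f D) : IsOpen (f '' D) ∧ (∀ z ∈ D, deriv f z ≠ 0) ∧
      ∃ g : ℂ → ℂ, DifferentiableOn ℂ g (f '' D) ∧ ∀ z ∈ D, g (f z) = z := by
  set g : ℂ → ℂ := Function.invFunOn f D with hgdef
  have hg : ∀ z ∈ D, g (f z) = z := fun z hz => hi.leftInvOn_invFunOn hz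
  have hopen : IsOpen (f '' D) := by
    rw [isOpen_iff_mem_nhds]
    rintro _ ⟨z, hz, rfl⟩
    exact inverse_nhds hD hf hi hz (image_mem_map (hD.mem_nhds hz))
  have hfg : ∀ y ∈ f '' D, f (g y) = y := by
    rintro _ ⟨z, hz, rfl⟩
    rw [hg z hz]
  have hcont : ∀ z ∈ D, Tendsto g (𝓝 (f z)) (𝓝 z) := by
    intro z hz
    refine Tendsto.mono_left ?_ (inverse_nhds hD hf hi hz)
    rw [tendsto_map'_iff]
    refine Tendsto.congr' ?_ tendsto_id
    filter_upwards [hD.mem_nhds hz] with w hw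
    simp [hg w hw]
  have hcontAt : ∀ z ∈ D, ContinuousAt g (f z) := by
    intro z hz
    have := hcont z hz
    rw [ContinuousAt, hg z hz]
    exact this
  have hdiff0 : ∀ z ∈ D, deriv f z ≠ 0 → DifferentiableAt ℂ g (f z) := by
    intro z hz hne
    have h1 : HasDerivAt f (deriv f z) (g (f z)) := by
      rw [hg z hz]
      exact (hf.differentiableAt (hD.mem_nhds hz)).hasDerivAt
    have h2 : ∀ᶠ y in 𝓝 (f z), f (g y) = y := by
      filter_upwards [hopen.mem_nhds (mem_image_of_mem f hz)] with y hy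
      exact hfg y hy
    exact (HasDerivAt.of_local_left_inverse (hcontAt z hz) h1 hne h2).differentiableAt
  have hdiff : ∀ z ∈ D, DifferentiableAt ℂ g (f z) := by
    intro z hz
    have hpun : Tendsto g (𝓝[≠] (f z)) (𝓝[≠] z) := by
      refine tendsto_nhdsWithin_iff.2 ⟨(hcont z hz).mono_left nhdsWithin_le_nhds, ?_⟩
      have h1 : ∀ᶠ y in 𝓝[≠] (f z), y ∈ f '' D :=
        mem_nhdsWithin_of_mem_nhds (hopen.mem_nhds (mem_image_of_mem f hz))
      have h2 : ∀ᶠ y in 𝓝[≠] (f z), y ≠ f z := self_mem_nhdsWithin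
      filter_upwards [h1, h2] with y hy hne heq
      apply hne
      rw [← hfg y hy, heq]
    have hev : ∀ᶠ y in 𝓝[≠] (f z), DifferentiableAt ℂ g y := by
      have h0 := hpun.eventually (inverse_deriv_ne hD hf hi hz)
      have h1 : ∀ᶠ y in 𝓝[≠] (f z), y ∈ f '' D :=
        mem_nhdsWithin_of_mem_nhds (hopen.mem_nhds (mem_image_of_mem f hz))
      filter_upwards [h0, h1] with y hy hyD
      obtain ⟨w, hw, rfl⟩ := hyD
      rw [hg w hw] at hy
      exact hdiff0 w hw hy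
    exact (Complex.analyticAt_of_differentiable_on_punctured_nhds_of_continuousAt hev
      (hcontAt z hz)).differentiableAt
  refine ⟨hopen, fun z hz h0 => ?_, g, ?_, hg⟩
  · have h1 : HasDerivAt (g ∘ f) (deriv g (f z) * deriv f z) z :=
      (hdiff z hz).hasDerivAt.comp z (hf.differentiableAt (hD.mem_nhds hz)).hasDerivAt
    have h2 : HasDerivAt (g ∘ f) 1 z := by
      refine (hasDerivAt_id z).congr_of_eventuallyEq ?_
      filter_upwards [hD.mem_nhds hz] with w hw
      simp [hg w hw]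
    have h3 := h1.unique h2
    rw [h0, mul_zero] at h3
    exact zero_ne_one h3
  · rintro _ ⟨z, hz, rfl⟩
    exact (hdiff z hz).differentiableWithinAt

end Pool.Agent.EN
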