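import Pool.Agent.Helper9.Ends.Defs

/-!
# Limits of bounded holomorphic functions along an ultrafilter
-/

set_option autoImplicit false

open Set Filter Metric Topology

namespace Pool.Agent.EN

/-- Cauchy estimate: a bounded holomorphic function is Lipschitz inside. -/
theorem ultralim_lip {D : Set ℂ} {F : ℂ → ℂ} (hF : DifferentiableOn ℂ F D)
    (hb : ∀ z ∈ D, ‖F z‖ ≤ 1) {z₀ : ℂ} {r : ℝ} (hr : 0 < r) (hball : ball z₀ (2 * r) ⊆ D) {z : ℂ}
    (hz : z ∈ ball z₀ r) : ‖F z - F z₀‖ ≤ 1 / r * ‖z - z₀‖ := by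
  have hsub : ball z₀ r ⊆ ball z₀ (2 * r) := ball_subset_ball (by linarith)
  refine Convex.norm_image_sub_le_of_norm_deriv_le (s := ball z₀ r) (fun w hw => ?_)
    (fun w hw => ?_) (convex_ball z₀ r) (mem_ball_self hr) hz
  · exact (hF.mono hball).differentiableAt (isOpen_ball.mem_nhds (hsub hw))
  · have hcl : closedBall w r ⊆ D := by
      intro x hx
      apply hball
      rw [mem_closedBall] at hx
      rw [mem_ball] at hw ⊢
      calc dist x z₀ ≤ dist x w + dist w z₀ := dist_triangle _ _ _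
        _ < 2 * r := by linarith
    exact Complex.norm_deriv_le_of_forall_mem_sphere_norm_le hr (hF.diffContOnCl_ball hcl)
      fun x hx => hb x (hcl (sphere_subset_closedBall hx))

/-- EN-4a: Montel along an ultrafilter -/
theorem exists_ultralim {D : Set ℂ} (hD : IsOpen D) (F : ℕ → ℂ → ℂ)
    (hF : ∀ n, DifferentiableOn ℂ (F n) D) (hb : ∀ n, ∀ z ∈ D, ‖F n z‖ ≤ 1) (U : Ultrafilter ℕ) :
    ∃ f : ℂ → ℂ, TendstoLocallyUniformlyOn F f (U : Filter ℕ) D := by
  have hpt : ∀ z : ℂ, ∃ y : ℂ, z ∈ D → Tendsto (fun n => F n z) (U : Filter ℕ) (𝓝 y) := by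
    intro z
    by_cases hz : z ∈ D
    · have hle : ((U.map fun n => F n z : Ultrafilter ℂ) : Filter ℂ) ≤ 𝓟 (closedBall (0 : ℂ) 1) := by
        rw [le_principal_iff]
        change (fun n => F n z) ⁻¹' closedBall (0 : ℂ) 1 ∈ (U : Filter ℕ)
        refine mem_of_superset univ_mem fun n _ => ?_
        simp only [mem_preimage, mem_closedBall_zero_iff]
        exact hb n z hz
      obtain ⟨y, _, hy⟩ := (isCompact_closedBall (0 : ℂ) 1).ultrafilter_le_nhds _ hle
      exact ⟨y, fun _ => hy⟩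
    · exact ⟨0, fun h => absurd h hz⟩
  choose f hf using hpt
  refine ⟨f, Metric.tendstoLocallyUniformlyOn_iff.2 fun ε hε z₀ hz₀ => ?_⟩
  obtain ⟨R, hR, hRD⟩ := Metric.isOpen_iff.1 hD z₀ hz₀
  set r := R / 2 with hr
  have hr0 : 0 < r := by positivity
  have hball : ball z₀ (2 * r) ⊆ D := by
    rw [hr]
    convert hRD using 2
    ring
  set δ := min r (ε * r / 4) with hδ
  have hδ0 : 0 < δ := by positivity
  have hδr : ball z₀ δ ⊆ ball z₀ r := ball_subset_ball (min_le_left _ _)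
  have hrD : ball z₀ r ⊆ D := (ball_subset_ball (by linarith)).trans hball
  have hlip : ∀ n, ∀ z ∈ ball z₀ δ, ‖F n z - F n z₀‖ ≤ ε / 4 := by
    intro n z hz
    refine (ultralim_lip (hF n) (hb n) hr0 hball (hδr hz)).trans ?_
    have h1 : ‖z - z₀‖ ≤ ε * r / 4 := by
      rw [mem_ball, dist_eq_norm] at hz
      exact hz.le.trans (min_le_right _ _)
    calc 1 / r * ‖z - z₀‖ ≤ 1 / r * (ε * r / 4) := by gcongr
      _ = ε / 4 := by field_simp
  have hflip : ∀ z ∈ ball z₀ δ, ‖f z - f z₀‖ ≤ ε / 4 := by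
    intro z hz
    have h1 := hf z (hrD (hδr hz))
    have h2 := hf z₀ hz₀
    exact le_of_tendsto (h1.sub h2).norm (Eventually.of_forall fun n => hlip n z hz)
  refine ⟨ball z₀ δ, mem_nhdsWithin_of_mem_nhds (ball_mem_nhds z₀ hδ0), ?_⟩
  have hev := Metric.tendsto_nhds.1 (hf z₀ hz₀) (ε / 4) (by positivity)
  filter_upwards [hev] with n hn z hz
  have h1 := hlip n z hz
  have h2 := hflip z hz
  rw [dist_eq_norm] at hn ⊢
  have e : f z - F n z = (f z - f z₀) - (F n z - F n z₀) - (F n z₀ - f z₀) := by ring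
  rw [e]
  calc ‖(f z - f z₀) - (F n z - F n z₀) - (F n z₀ - f z₀)‖
      ≤ ‖(f z - f z₀) - (F n z - F n z₀)‖ + ‖F n z₀ - f z₀‖ := norm_sub_le _ _
    _ ≤ ‖f z - f z₀‖ + ‖F n z - F n z₀‖ + ‖F n z₀ - f z₀‖ := by gcongr; exact norm_sub_le _ _
    _ < ε := by linarith

end Pool.Agent.EN
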